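import Mathlib

/-! Project JO, part M (lattice points in residue classes). Definitions. -/

namespace Pool.Agent.JOM

open MeasureTheory Filter Topology UpperHalfPlane
open scoped MatrixGroups Modular ArithmeticFunction.Moebius

/-- `e(x)` -/
noncomputable def ee (x : ℝ) : ℂ := Complex.exp (2 * Real.pi * Complex.I * x)

/-- `(a, b; c, d)` with `b = (a d - 1) / c` is congruent to `(A, B; c, D)` modulo `n` -/
def Vp (n : ℕ) (A B D c a d : ℤ) : Prop :=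
  (n : ℤ) ∣ a - A ∧ (n : ℤ) ∣ d - D ∧ c * n ∣ a * d - 1 - c * B

/-- the residue class modulo `n` is that of a matrix of determinant one -/
def Cls (n : ℕ) (A B C D : ℤ) : Prop := (n : ℤ) ∣ A * D - B * C - 1

/-- admissible lower right entries -/
def Adm (n : ℕ) (D c d : ℤ) : Prop := IsCoprime c d ∧ (n : ℤ) ∣ d - D

/-- Fejer weights modulo `N` -/
noncomputable def wgt (N L m : ℕ) : ℝ :=
  ‖∑ i ∈ Finset.range L, ee ((m : ℝ) * i / N)‖ ^ 2 / (L : ℝ) ^ 2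

open Classical in
/-- `∏ (1 - 1/p)` over the primes `p ∣ c`, `p ∤ n` -/
noncomputable def ff (n c : ℕ) : ℝ := ∑ e ∈ c.divisors.filter (fun e => e.Coprime n), (μ e : ℝ) / e

/-- `∑ μ(e) / e ^ 2` over `e` prime to `n` -/
noncomputable def kk (n : ℕ) : ℝ := ∑' e : ℕ, if e.Coprime n then (μ e : ℝ) / (e : ℝ) ^ 2 else 0

/-- `c` has good factorisations for all frequencies `l ≤ M₀` -/
def Good (n M₀ : ℕ) (Y : ℝ) (c : ℕ) : Prop :=
  ∀ l : ℕ, 1 ≤ l → l ≤ M₀ → ∃ r s : ℕ, c = r * s ∧ Squarefree r ∧ r.Coprime (s * l * n) ∧ (s : ℝ) ≤ Y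

/-- `2 y v cosh (dist (x + i y) (g (u + i v)))` for `g = (a, b; c, d)` -/
noncomputable def QF (x y u v a b c d : ℝ) : ℝ :=
  (a - x * c) ^ 2 * v ^ 2 + ((a - x * c) * u + b - x * d) ^ 2 + y ^ 2 * c ^ 2 * v ^ 2 +
    y ^ 2 * (c * u + d) ^ 2

/-- the simplified quadratic form -/
noncomputable def WF (y v p q : ℝ) : ℝ := (p ^ 2 + y ^ 2) * (q ^ 2 + v ^ 2) / (2 * y * v)

/-- test functions: Lipschitz, zero from `κ` on -/
def Tst (β : ℝ → ℝ) (Λ κ : ℝ) : Prop :=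
  0 ≤ Λ ∧ 1 ≤ κ ∧ (∀ s t : ℝ, |β s - β t| ≤ Λ * |s - t|) ∧ ∀ t : ℝ, κ ≤ t → β t = 0

/-- reduction modulo `n` -/
def red (n : ℕ) : SL(2, ℤ) →* SL(2, ZMod n) :=
  Matrix.SpecialLinearGroup.map (Int.castRingHom (ZMod n))

/-- the elements of `SL(2, ℤ)` with entries of absolute value at most `M` -/
def Box (M : ℕ) : Set SL(2, ℤ) := {g | ∀ i j, |g i j| ≤ M}

end Pool.Agent.JOM
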